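import Mathlib

/-!
# A Tychonoff space whose closed subspaces all have small density but which is not hereditarily so

Let `τ = ℶ_ω`.  We construct (in ZFC) a zero-dimensional T0 (hence Tychonoff) space `X` such that every
closed subspace of `X` has density at most `τ`, while some subspace of `X` has density `τ⁺`.

* Section `PCF`: an increasing sequence of length `τ⁺` of functions `ℕ → ordinals`, increasing modulo
  finite sets, has an exact upper bound `g` (closing off a set of `2 ^ ℵ₀` ordinals), and the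
  cofinalities of the values of `g` are eventually bigger than any given cardinal below `τ`, as `τ` is
  a strong limit.  Passing to a subsequence gives linear orders `L k`, `k : ℕ`, and a scale
  `f a`, `a < τ⁺`, in the product of the `L k` modulo finite sets.
* Section `Topo`: the points of the space are the members `f a` of the scale and all finite sequences
  `s` from the product (thought of as being equal to `⊤` from some place on).  The basic open sets
  are `V n h = {x | x = h below n and x ≥ h everywhere}`.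
-/

set_option autoImplicit false

open Set Filter Topology

namespace Pool.Agent.Work.MP_a33cdf_gt

section Topo

variable (L : ℕ → Type) [∀ n, LinearOrder (L n)]

/-- Sequences with values in `L n ∪ {⊤}` that stay at `⊤` once they reach it. -/
def Y : Type := {x : ∀ n, WithTop (L n) // ∀ k, x k = ⊤ → x (k + 1) = ⊤}

variable {L}

def V (n : ℕ) (h : ∀ k, L k) : Set (Y L) :=
  {x | (∀ k < n, x.1 k = (h k : WithTop (L k))) ∧ ∀ k, n ≤ k → (h k : WithTop (L k)) ≤ x.1 k}

instance : TopologicalSpace (Y L) :=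
  TopologicalSpace.generateFrom {s | ∃ n h, s = V n h}

theorem V_open (n : ℕ) (h : ∀ k, L k) : IsOpen (V n h) :=
  TopologicalSpace.isOpen_generateFrom_of_mem ⟨n, h, rfl⟩

omit [∀ n, LinearOrder (L n)] in
theorem Y.top_mono (x : Y L) {k l : ℕ} (hkl : k ≤ l) (hk : x.1 k = ⊤) : x.1 l = ⊤ := by
  induction l, hkl using Nat.le_induction with
  | base => exact hk
  | succ n _ ih => exact x.2 n ih

/-- the point given by a function -/
def ofFun (f : ∀ k, L k) : Y L := ⟨fun k => (f k : WithTop (L k)), fun k hk => by simp at hk⟩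

/-- the point which follows `h` below `n` and is `⊤` from `n` on -/
def pt (n : ℕ) (h : ∀ k, L k) : Y L :=
  ⟨fun k => if k < n then (h k : WithTop (L k)) else ⊤, fun k hk => by
    by_cases h1 : k < n
    · simp [h1] at hk
    · have : ¬ (k + 1 < n) := by omega
      simp [this]⟩

theorem cases (h₀ : ∀ k, L k) (x : Y L) : (∃ f, x = ofFun f) ∨ ∃ n h, x = pt n h := by
  classical
  by_cases hx : ∃ k, x.1 k = ⊤
  · right
    let n := Nat.find hx
    have hn : x.1 n = ⊤ := Nat.find_spec hx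
    have hlt : ∀ k < n, x.1 k ≠ ⊤ := fun k hk => Nat.find_min hx hk
    refine ⟨n, fun k => if hk : x.1 k ≠ ⊤ then (x.1 k).untop hk else h₀ k, ?_⟩
    apply Subtype.ext
    funext k
    simp only [pt]
    by_cases hk : k < n
    · have := hlt k hk
      simp [hk, this]
    · simp only [hk, if_false]
      exact x.top_mono (not_lt.1 hk) hn
  · left
    push Not at hx
    refine ⟨fun k => (x.1 k).untop (hx k), ?_⟩
    apply Subtype.ext
    funext k
    simp [ofFun]

theorem V_subset {n m : ℕ} {h h' : ∀ k, L k} (hnm : n ≤ m) (h1 : ∀ k < n, h' k = h k)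
    (h2 : ∀ k, n ≤ k → h k ≤ h' k) : V m h' ⊆ V n h := by
  rintro x ⟨hx1, hx2⟩
  refine ⟨fun k hk => ?_, fun k hk => ?_⟩
  · rw [hx1 k (by omega), h1 k hk]
  · by_cases hkm : k < m
    · rw [hx1 k hkm]; exact WithTop.coe_le_coe.2 (h2 k hk)
    · exact le_trans (WithTop.coe_le_coe.2 (h2 k hk)) (hx2 k (by omega))

@[simp] theorem ofFun_mem {f h : ∀ k, L k} {n : ℕ} :
    ofFun f ∈ V n h ↔ (∀ k < n, f k = h k) ∧ ∀ k, n ≤ k → h k ≤ f k := by
  simp [V, ofFun]

theorem pt_mem {n m : ℕ} {s h : ∀ k, L k} :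
    pt m s ∈ V n h ↔ n ≤ m ∧ (∀ k < n, s k = h k) ∧ ∀ k, n ≤ k → k < m → h k ≤ s k := by
  constructor
  · rintro ⟨h1, h2⟩
    have hnm : n ≤ m := by
      by_contra hlt
      have := h1 m (by omega)
      simp [pt] at this
    refine ⟨hnm, fun k hk => ?_, fun k hk hkm => ?_⟩
    · have := h1 k hk
      have hkm : k < m := by omega
      simpa [pt, hkm] using this
    · have := h2 k hk
      simpa [pt, hkm] using this
  · rintro ⟨hnm, h1, h2⟩
    refine ⟨fun k hk => ?_, fun k hk => ?_⟩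
    · have hkm : k < m := by omega
      simp [pt, hkm, h1 k hk]
    · by_cases hkm : k < m
      · simpa [pt, hkm] using h2 k hk hkm
      · simp [pt, hkm]

/-- gluing two functions at `m` -/
def glue (m : ℕ) (s h : ∀ k, L k) : ∀ k, L k := fun k => if k < m then s k else h k

theorem pt_mem_glue (m : ℕ) (s h : ∀ k, L k) : pt m s ∈ V m (glue m s h) := by
  rw [pt_mem]
  refine ⟨le_rfl, fun k hk => ?_, fun k hk hkm => by omega⟩
  simp [glue, hk]

theorem isBasis (h₀ : ∀ k, L k) :
    TopologicalSpace.IsTopologicalBasis {s : Set (Y L) | ∃ n h, s = V n h} := by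
  constructor
  · rintro _ ⟨n, h, rfl⟩ _ ⟨n', h', rfl⟩ x ⟨hx, hx'⟩
    rcases cases h₀ x with ⟨f, rfl⟩ | ⟨m, s, rfl⟩
    · refine ⟨V (max n n') f, ⟨_, _, rfl⟩, ?_, ?_⟩
      · simp
      · rw [ofFun_mem] at hx hx'
        apply subset_inter
        · exact V_subset (le_max_left _ _) hx.1 hx.2
        · exact V_subset (le_max_right _ _) hx'.1 hx'.2
    · rw [pt_mem] at hx hx'
      refine ⟨V m (glue m s (fun k => max (h k) (h' k))), ⟨_, _, rfl⟩, pt_mem_glue _ _ _, ?_⟩
      apply subset_inter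
      · refine V_subset hx.1 (fun k hk => ?_) (fun k hk => ?_)
        · have : k < m := by omega
          simp [glue, this, hx.2.1 k hk]
        · by_cases hkm : k < m
          · simpa [glue, hkm] using hx.2.2 k hk hkm
          · simp [glue, hkm]
      · refine V_subset hx'.1 (fun k hk => ?_) (fun k hk => ?_)
        · have : k < m := by omega
          simp [glue, this, hx'.2.1 k hk]
        · by_cases hkm : k < m
          · simpa [glue, hkm] using hx'.2.2 k hk hkm
          · simp [glue, hkm]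
  · rw [sUnion_eq_univ_iff]
    intro x
    rcases cases h₀ x with ⟨f, rfl⟩ | ⟨m, s, rfl⟩
    · exact ⟨V 0 f, ⟨_, _, rfl⟩, by simp⟩
    · exact ⟨_, ⟨m, glue m s h₀, rfl⟩, pt_mem_glue _ _ _⟩
  · rfl

theorem V_closed [∀ n, NoMaxOrder (L n)] (h₀ : ∀ k, L k) (n : ℕ) (h : ∀ k, L k) :
    IsClosed (V n h) := by
  rw [← isOpen_compl_iff, (isBasis h₀).isOpen_iff]
  intro x hx
  rcases cases h₀ x with ⟨f, rfl⟩ | ⟨m, s, rfl⟩
  · rw [mem_compl_iff, ofFun_mem, not_and_or] at hx
    rcases hx with hx | hx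
    · push Not at hx
      obtain ⟨k, hk, hne⟩ := hx
      refine ⟨V (k+1) f, ⟨_, _, rfl⟩, by simp, ?_⟩
      intro y hy hy'
      have h1 := hy.1 k (by omega)
      have h2 := hy'.1 k hk
      rw [h1] at h2
      exact hne (by exact_mod_cast h2)
    · push Not at hx
      obtain ⟨k, hk, hlt⟩ := hx
      refine ⟨V (k+1) f, ⟨_, _, rfl⟩, by simp, ?_⟩
      intro y hy hy'
      have h1 := hy.1 k (by omega)
      have h2 := hy'.2 k hk
      rw [h1, WithTop.coe_le_coe] at h2
      exact absurd hlt (not_lt.2 h2)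
  · have key : ∃ k, (k < m ∧ ((k < n ∧ s k ≠ h k) ∨ (n ≤ k ∧ s k < h k))) ∨ (m ≤ k ∧ k < n) := by
      by_contra hcon
      push Not at hcon
      apply hx
      rw [pt_mem]
      refine ⟨?_, ?_, ?_⟩
      · by_contra hlt
        have := (hcon m).2 le_rfl
        omega
      · intro k hk
        by_cases hkm : k < m
        · exact ((hcon k).1 hkm).1 hk
        · have := (hcon k).2 (by omega)
          omega
      · intro k hk hkm
        exact ((hcon k).1 hkm).2 hk
    obtain ⟨k, hk⟩ := key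
    rcases hk with ⟨hkm, hk⟩ | ⟨hmk, hkn⟩
    · refine ⟨V m (glue m s h₀), ⟨_, _, rfl⟩, pt_mem_glue _ _ _, ?_⟩
      intro y hy hy'
      have h1 := hy.1 k hkm
      simp only [glue, hkm, if_true] at h1
      rcases hk with ⟨hkn, hne⟩ | ⟨hnk, hlt⟩
      · have h2 := hy'.1 k hkn
        rw [h1] at h2
        exact hne (by exact_mod_cast h2)
      · have h2 := hy'.2 k hnk
        rw [h1, WithTop.coe_le_coe] at h2
        exact absurd hlt (not_lt.2 h2)
    · choose g hg using fun k => exists_gt (h k)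
      refine ⟨V m (glue m s g), ⟨_, _, rfl⟩, pt_mem_glue _ _ _, ?_⟩
      intro y hy hy'
      have h1 := hy.2 k hmk
      have h2 := hy'.1 k hkn
      have h3 : ¬ (k < m) := by omega
      simp only [glue, h3, if_false] at h1
      rw [h2, WithTop.coe_le_coe] at h1
      exact absurd (hg k) (not_lt.2 h1)

theorem completelyRegular [∀ n, NoMaxOrder (L n)] (h₀ : ∀ k, L k) :
    CompletelyRegularSpace (Y L) := by
  apply CompletelyRegularSpace.of_isTopologicalBasis_clopens
  apply TopologicalSpace.isTopologicalBasis_of_isOpen_of_nhds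
  · intro u hu
    exact hu.isOpen
  · intro a u ha hu
    obtain ⟨v, ⟨n, h, rfl⟩, hav, hvu⟩ := (isBasis h₀).exists_subset_of_mem_open ha hu
    exact ⟨V n h, ⟨V_closed h₀ n h, V_open n h⟩, hav, hvu⟩

theorem exists_sep (h₀ : ∀ k, L k) {x y : Y L} {k : ℕ} (hxk : x.1 k ≠ ⊤) (hxy : x.1 k ≠ y.1 k) :
    ∃ n h, x ∈ V n h ∧ y ∉ V n h := by
  rcases cases h₀ x with ⟨f, rfl⟩ | ⟨m, s, rfl⟩
  · refine ⟨k+1, f, by simp, fun hy => hxy ?_⟩
    rw [hy.1 k (by omega)]
    rfl
  · have hkm : k < m := by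
      by_contra hkm
      exact hxk (by simp [pt, hkm])
    refine ⟨m, glue m s h₀, pt_mem_glue _ _ _, fun hy => hxy ?_⟩
    rw [hy.1 k hkm]
    simp [pt, glue, hkm]

theorem t0 (h₀ : ∀ k, L k) : T0Space (Y L) := by
  refine ⟨fun x y hxy => ?_⟩
  by_contra hne
  have : ∃ k, x.1 k ≠ y.1 k := by
    by_contra hcon
    push Not at hcon
    exact hne (Subtype.ext (funext hcon))
  obtain ⟨k, hk⟩ := this
  rw [inseparable_iff_forall_isOpen] at hxy
  by_cases hx : x.1 k = ⊤
  · have hy : y.1 k ≠ ⊤ := fun hy => hk (hx.trans hy.symm)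
    obtain ⟨n, h, h1, h2⟩ := exists_sep h₀ hy hk.symm
    exact h2 ((hxy _ (V_open n h)).2 h1)
  · obtain ⟨n, h, h1, h2⟩ := exists_sep h₀ hx hk
    exact h2 ((hxy _ (V_open n h)).1 h1)

theorem t35 [∀ n, NoMaxOrder (L n)] (h₀ : ∀ k, L k) : T35Space (Y L) := by
  have := t0 h₀
  have := completelyRegular h₀
  exact {}

/-- extension of a finite sequence -/
def ext (h₀ : ∀ k, L k) (n : ℕ) (s : ∀ i : Fin n, L i) : ∀ k, L k :=
  fun k => if hk : k < n then s ⟨k, hk⟩ else h₀ k

omit [∀ n, LinearOrder (L n)] in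
theorem pt_ext (h₀ : ∀ k, L k) (n : ℕ) (h : ∀ k, L k) :
    pt n (ext h₀ n (fun i => h i)) = pt n h := by
  apply Subtype.ext
  funext k
  by_cases hk : k < n <;> simp [pt, ext, hk]

theorem mk_pt_le (τ : Cardinal.{0}) (hτ : Cardinal.aleph0 ≤ τ) (hL : ∀ n, Cardinal.mk (L n) ≤ τ)
    (h₀ : ∀ k, L k) : Cardinal.mk {x : Y L | ∃ n h, x = pt n h} ≤ τ := by
  have h1 : {x : Y L | ∃ n h, x = pt n h} ⊆
      range (fun p : (Σ n : ℕ, ∀ i : Fin n, L i) => pt p.1 (ext h₀ p.1 p.2)) := by
    rintro _ ⟨n, h, rfl⟩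
    exact ⟨⟨n, fun i => h i⟩, pt_ext h₀ n h⟩
  refine (Cardinal.mk_le_mk_of_subset h1).trans (Cardinal.mk_range_le.trans ?_)
  rw [Cardinal.mk_sigma]
  refine (Cardinal.sum_le_mk_mul_iSup _).trans ?_
  have h2 : ∀ n : ℕ, Cardinal.mk (∀ i : Fin n, L i) ≤ τ := by
    intro n
    rw [Cardinal.mk_pi]
    calc Cardinal.prod (fun i : Fin n => Cardinal.mk (L i))
        ≤ Cardinal.prod (fun _ : Fin n => τ) := Cardinal.prod_le_prod _ _ (fun i => hL i)
      _ = τ ^ (n : Cardinal) := by simp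
      _ ≤ τ := Cardinal.power_nat_le hτ
  calc Cardinal.mk ℕ * (⨆ n : ℕ, Cardinal.mk (∀ i : Fin n, L i))
      ≤ τ * τ := by
        apply mul_le_mul'
        · simpa using hτ
        · exact ciSup_le' h2
    _ = τ := Cardinal.mul_eq_self hτ

/-- The main topological construction. -/
theorem counterexample (τ : Cardinal.{0}) (hτ : Cardinal.aleph0 ≤ τ) [∀ n, NoMaxOrder (L n)]
    (h₀ : ∀ k, L k) (hL : ∀ n, Cardinal.mk (L n) ≤ τ)
    (hb : ∀ k (φ : (∀ i : Fin k, L i) → L k), ∃ w, ∀ s, φ s ≤ w)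
    (I : Type) [LinearOrder I] [NoMaxOrder I] [Nonempty I]
    (hI1 : ∀ a : I, Cardinal.mk (Iic a) ≤ τ)
    (hI2 : ∀ (M : Type) (φ : M → I), Cardinal.mk M ≤ τ → ∃ b, ∀ m, φ m ≤ b)
    (f : I → ∀ n, L n) (hf1 : ∀ a b, a < b → ∀ᶠ n in atTop, f a n < f b n)
    (hf2 : ∀ h : ∀ n, L n, ∃ a, ∀ᶠ n in atTop, h n ≤ f a n) :
    ¬ (∀ (X : Type) [TopologicalSpace X] [T35Space X] (τ : Cardinal.{0}),
      (∀ Y : Set X, IsClosed Y → ∃ D ⊆ Y, Y ⊆ closure D ∧ Cardinal.mk ↥D ≤ τ) →
      ∀ Z : Set X, ∃ D ⊆ Z, Z ⊆ closure D ∧ Cardinal.mk ↥D ≤ τ) := by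
  intro hcon
  have hT := t35 h₀
  let S : Set (Y L) := range (fun a => ofFun (f a)) ∪ {x : Y L | ∃ n h, x = pt n h}
  let X : Type := ↥S
  have hnh : ∀ (x : X) (u : Set X), IsOpen u → x ∈ u →
      ∃ n h, x.1 ∈ V n h ∧ ∀ y : X, y.1 ∈ V n h → y ∈ u := by
    intro x u hu hx
    obtain ⟨v, hv, rfl⟩ := isOpen_induced_iff.1 hu
    obtain ⟨_, ⟨n, h, rfl⟩, hav, hvu⟩ := (isBasis h₀).exists_subset_of_mem_open hx hv
    exact ⟨n, h, hav, fun y hy => hvu hy⟩
  have hVo : ∀ n h, IsOpen {x : X | x.1 ∈ V n h} := fun n h =>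
    (V_open n h).preimage continuous_subtype_val
  -- the bad subset
  let Z : Set X := {x | ∃ a, x.1 = ofFun (f a)}
  let P : Set X := {x | ∃ n h, x.1 = pt n h}
  have hP : Cardinal.mk P ≤ τ := by
    refine le_trans ?_ (mk_pt_le τ hτ hL h₀)
    refine Cardinal.mk_le_of_injective (f := fun x : P => ⟨x.1.1, x.2⟩) ?_
    intro x y hxy
    have := congrArg Subtype.val hxy
    exact Subtype.ext (Subtype.ext this)
  have hclosed : ∀ F : Set X, IsClosed F → ∃ D ⊆ F, F ⊆ closure D ∧ Cardinal.mk ↥D ≤ τ := by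
    intro F hF
    let R : Set X := {x | x ∈ F ∧ x ∉ closure (F ∩ P)}
    refine ⟨(F ∩ P) ∪ R, ?_, ?_, ?_⟩
    · exact union_subset inter_subset_left (fun x hx => hx.1)
    · intro x hx
      by_cases hxc : x ∈ closure (F ∩ P)
      · exact closure_mono subset_union_left hxc
      · exact subset_closure (Or.inr ⟨hx, hxc⟩)
    · refine (Cardinal.mk_union_le _ _).trans ?_
      have hFP : Cardinal.mk (F ∩ P : Set X) ≤ τ :=
        (Cardinal.mk_le_mk_of_subset inter_subset_right).trans hP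
      have hR : Cardinal.mk R ≤ τ := by
        let A : Set I := {a | ∃ x ∈ R, x.1 = ofFun (f a)}
        have hA : ∃ b, ∀ a ∈ A, a ≤ b := by
          by_contra hAc
          have hm : ∀ a ∈ A, ∃ m, ∀ y ∈ F ∩ P, y.1 ∉ V m (f a) := by
            rintro a ⟨x, hxR, hxa⟩
            have h1 := hxR.2
            rw [mem_closure_iff] at h1
            push Not at h1
            obtain ⟨u, hu, hxu, hue⟩ := h1
            obtain ⟨n, h, hxn, hnu⟩ := hnh x u hu hxu
            refine ⟨n, fun y hy hyV => ?_⟩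
            rw [hxa, ofFun_mem] at hxn
            have := hnu y (V_subset le_rfl hxn.1 hxn.2 hyV)
            have h2 : y ∈ u ∩ (F ∩ P) := ⟨this, hy⟩
            rw [hue] at h2
            exact h2
          have hm2 : ∃ m, ∀ b, ∃ a ∈ A, (∀ y ∈ F ∩ P, y.1 ∉ V m (f a)) ∧ b < a := by
            by_contra hc
            push Not at hc
            choose b hbm using hc
            obtain ⟨c, hc⟩ := hI2 ℕ b (by simpa using hτ)
            apply hAc
            refine ⟨c, fun a ha => ?_⟩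
            obtain ⟨m, hm⟩ := hm a ha
            exact (hbm m a ha hm).trans (hc m)
          obtain ⟨m, hm⟩ := hm2
          -- choose functions avoiding F
          have hG : ∀ n (s : ∀ i : Fin n, L i), ∃ g : ∀ k, L k,
              (∀ y ∈ F, y.1 ≠ pt n (ext h₀ n s)) →
              ∀ y ∈ F, y.1 ∉ V n (glue n (ext h₀ n s) g) := by
            intro n s
            by_cases hc : ∀ y ∈ F, y.1 ≠ pt n (ext h₀ n s)
            · let x : X := ⟨pt n (ext h₀ n s), Or.inr ⟨_, _, rfl⟩⟩
              have hx : x ∈ Fᶜ := fun hxF => hc x hxF rfl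
              obtain ⟨n', h', hx1, hx2⟩ := hnh x _ hF.isOpen_compl hx
              rw [show x.1 = pt n (ext h₀ n s) from rfl, pt_mem] at hx1
              refine ⟨h', fun _ y hy hyV => hx2 y ?_ hy⟩
              refine V_subset hx1.1 (fun k hk => ?_) (fun k hk => ?_) hyV
              · have : k < n := by omega
                simp [glue, this, hx1.2.1 k hk]
              · by_cases hkn : k < n
                · simpa [glue, hkn] using hx1.2.2 k hk hkn
                · simp [glue, hkn]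
            · exact ⟨h₀, fun h => absurd h hc⟩
          choose G hG using hG
          have hH : ∀ k, ∃ w : L k, ∀ n ≤ k, ∀ s : (∀ i : Fin n, L i), G n s k ≤ w := by
            intro k
            have h1 : ∀ n, ∃ w : L k, n ≤ k → ∀ s : (∀ i : Fin n, L i), G n s k ≤ w := by
              intro n
              by_cases hnk : n ≤ k
              · obtain ⟨w, hw⟩ := hb k (fun s => G n (fun i => s (Fin.castLE hnk i)) k)
                refine ⟨w, fun _ s => ?_⟩
                have := hw (fun i => ext h₀ n s i)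
                have h2 : (fun i : Fin n => ext h₀ n s (Fin.castLE hnk i)) = s := by
                  funext i
                  simp [ext]
                simp only [h2] at this
                exact this
              · exact ⟨h₀ k, fun h => absurd h hnk⟩
            choose w hw using h1
            have hne : Nonempty (L k) := ⟨h₀ k⟩
            obtain ⟨M, hM⟩ := Finset.exists_le ((Finset.range (k+1)).image w)
            refine ⟨M, fun n hn s => (hw n hn s).trans (hM _ ?_)⟩
            exact Finset.mem_image_of_mem _ (Finset.mem_range.2 (by omega))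
          choose H hH using hH
          obtain ⟨b, hb'⟩ := hf2 H
          obtain ⟨a, haA, ham, hba⟩ := hm b
          have hev : ∀ᶠ k in atTop, H k ≤ f a k := by
            filter_upwards [hb', hf1 b a hba] with k h1 h2
            exact h1.trans h2.le
          obtain ⟨N, hN⟩ := eventually_atTop.1 hev
          let n := max N m
          have h1 : ∀ y ∈ F, y.1 ≠ pt n (ext h₀ n (fun i => f a i)) := by
            intro y hy hye
            rw [pt_ext] at hye
            apply ham y ⟨hy, ⟨_, _, hye⟩⟩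
            rw [hye, pt_mem]
            exact ⟨le_max_right _ _, fun _ _ => rfl, fun _ _ _ => le_rfl⟩
          obtain ⟨x, hxR, hxa⟩ := haA
          apply hG n (fun i => f a i) h1 x hxR.1
          rw [hxa, ofFun_mem]
          refine ⟨fun k hk => ?_, fun k hk => ?_⟩
          · simp [glue, hk, ext]
          · have hkn : ¬ (k < n) := by omega
            simp only [glue, hkn, if_false]
            exact (hH k n hk _).trans (hN k ((le_max_left _ _).trans hk))
        obtain ⟨b, hb'⟩ := hA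
        have h1 : Cardinal.mk R ≤ Cardinal.mk (Iic b) := by
          have h2 : ∀ x : R, ∃ a : I, x.1.1 = ofFun (f a) ∧ a ≤ b := by
            rintro ⟨x, hx⟩
            have hxP : x ∉ P := fun hxP => hx.2 (subset_closure ⟨hx.1, hxP⟩)
            rcases x.2 with ⟨a, ha⟩ | hxp
            · exact ⟨a, ha.symm, hb' a ⟨x, hx, ha.symm⟩⟩
            · exact absurd hxp hxP
          choose φ hφ1 hφ2 using h2
          refine Cardinal.mk_le_of_injective (f := fun x : R => (⟨φ x, hφ2 x⟩ : Iic b)) ?_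
          intro x y hxy
          have h3 : φ x = φ y := congrArg Subtype.val hxy
          apply Subtype.ext
          apply Subtype.ext
          rw [hφ1, hφ1, h3]
        exact h1.trans (hI1 b)
      exact (add_le_add hFP hR).trans (Cardinal.add_eq_self hτ).le
  obtain ⟨D, hDZ, hZD, hD⟩ := hcon X τ hclosed Z
  have h1 : ∀ d : D, ∃ a, d.1.1 = ofFun (f a) := fun d => hDZ d.2
  choose φ hφ using h1
  obtain ⟨b, hb'⟩ := hI2 D φ hD
  obtain ⟨c, hc⟩ := exists_gt b
  let x : X := ⟨ofFun (f c), Or.inl ⟨c, rfl⟩⟩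
  have hx : x ∈ closure D := hZD ⟨c, rfl⟩
  rw [mem_closure_iff] at hx
  obtain ⟨y, hyV, hyD⟩ := hx _ (hVo 0 (f c)) (by simp [x])
  have h2 : y.1 ∈ V 0 (f c) := hyV
  rw [hφ ⟨y, hyD⟩, ofFun_mem] at h2
  have h3 := hf1 (φ ⟨y, hyD⟩) c (lt_of_le_of_lt (hb' _) hc)
  obtain ⟨k, hk⟩ := h3.exists
  exact absurd hk (not_lt.2 (h2.2 k (Nat.zero_le _)))

end Topo

section PCF

inductive Tree : Type
  | leaf (n : ℕ) : Tree
  | node (n : ℕ) (c : ℕ → Tree) : Tree

def Tree.code : Tree → List ℕ → ℕ × Bool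
  | .leaf n, _ => (n, false)
  | .node n _, [] => (n, true)
  | .node _ c, k :: l => (c k).code l

theorem Tree.code_injective : Function.Injective Tree.code := by
  intro t
  induction t with
  | leaf n =>
    intro t' h
    cases t' with
    | leaf m =>
      have := congrFun h []
      simp only [Tree.code, Prod.mk.injEq, and_true] at this
      rw [this]
    | node m c =>
      have := congrFun h []
      simp [Tree.code] at this
  | node n c ih =>
    intro t' h
    cases t' with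
    | leaf m =>
      have := congrFun h []
      simp [Tree.code] at this
    | node m c' =>
      have h0 := congrFun h []
      simp only [Tree.code, Prod.mk.injEq, and_true] at h0
      have h1 : c = c' := by
        funext k
        apply ih k
        funext l
        have := congrFun h (k :: l)
        simpa [Tree.code] using this
      rw [h0, h1]

theorem mk_tree_le : Cardinal.mk (ℕ → Tree) ≤ Cardinal.continuum := by
  have h1 : Cardinal.mk Tree ≤ Cardinal.continuum := by
    refine (Cardinal.mk_le_of_injective Tree.code_injective).trans ?_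
    simp
  calc Cardinal.mk (ℕ → Tree) = Cardinal.mk Tree ^ Cardinal.aleph0 := by simp
    _ ≤ Cardinal.continuum ^ Cardinal.aleph0 := Cardinal.power_le_power_right h1
    _ = Cardinal.continuum := by simp

theorem exists_eub {W : Type*} [LinearOrder W] [WellFoundedLT W] (u : ℕ → W)
    {I : Type} [LinearOrder I] [NoMaxOrder I] [Nonempty I]
    (hI : ∀ ψ : (ℕ → Tree) → I, ∃ b, ∀ e, ψ e ≤ b)
    (f : I → ℕ → W) (hf : ∀ a b, a < b → ∀ᶠ n in atTop, f a n < f b n)
    (hu : ∀ a n, f a n ≤ u n) :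
    ∃ g : ℕ → W, (∀ n, g n ≤ u n) ∧ (∀ a, ∀ᶠ n in atTop, f a n < g n) ∧
      ∀ h : ℕ → W, ∃ a, ∀ᶠ n in atTop, h n < g n → h n < f a n := by
  classical
  have hΦ : ∀ g : ℕ → W, ∃ h' : ℕ → W,
      (∃ h : ℕ → W, ∀ a, ¬ ∀ᶠ n in atTop, h n < g n → h n < f a n) →
      ∀ a, ¬ ∀ᶠ n in atTop, h' n < g n → h' n < f a n := by
    intro g
    by_cases hc : ∃ h : ℕ → W, ∀ a, ¬ ∀ᶠ n in atTop, h n < g n → h n < f a n
    · obtain ⟨h, hh⟩ := hc
      exact ⟨h, fun _ => hh⟩
    · exact ⟨g, fun h => absurd h hc⟩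
  choose Φ hΦ using hΦ
  let eval : Tree → W := fun t => Tree.rec (fun n => u n) (fun n _ ih => Φ ih n) t
  have hleaf : ∀ n, eval (.leaf n) = u n := fun n => rfl
  have hnode : ∀ n c, eval (.node n c) = Φ (fun k => eval (c k)) n := fun n c => rfl
  have hmin : ∀ a n, ∃ t, f a n ≤ eval t ∧ ∀ t', f a n ≤ eval t' → eval t ≤ eval t' := by
    intro a n
    let s : Set W := {w | ∃ t, eval t = w ∧ f a n ≤ w}
    have hs : s.Nonempty := ⟨u n, .leaf n, hleaf n, hu a n⟩
    obtain ⟨t, ht, hle⟩ := wellFounded_lt.min_mem s hs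
    refine ⟨t, ?_, fun t' ht' => ?_⟩
    · rw [ht]; exact hle
    · rw [ht]
      exact wellFounded_lt.min_le (s := s) ⟨t', rfl, ht'⟩
  choose e he1 he2 using hmin
  have hpig : ∃ e₀, ∀ a, ∃ b, a ≤ b ∧ e b = e₀ := by
    by_contra hc
    push Not at hc
    choose ψ hψ using hc
    obtain ⟨b, hb⟩ := hI ψ
    exact hψ (e b) b (hb _) rfl
  obtain ⟨e₀, he₀⟩ := hpig
  obtain ⟨b₀, -, hb₀⟩ := he₀ (Classical.arbitrary I)
  refine ⟨fun n => eval (e₀ n), fun n => ?_, fun a => ?_, fun h => ?_⟩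
  · have := he2 b₀ n (.leaf n) (hu b₀ n)
    rw [hb₀] at this
    exact this
  · obtain ⟨a', ha'⟩ := exists_gt a
    obtain ⟨b, hb, hbe⟩ := he₀ a'
    filter_upwards [hf a b (ha'.trans_le hb)] with n hn
    refine hn.trans_le ?_
    have := he1 b n
    rwa [hbe] at this
  · by_contra hc
    rw [not_exists] at hc
    have h1 := hΦ (fun n => eval (e₀ n)) ⟨h, hc⟩ b₀
    apply h1
    filter_upwards with n hn
    by_contra hlt
    have h2 := he2 b₀ n (.node n e₀) (not_lt.1 hlt)
    rw [hb₀] at h2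
    exact absurd hn (not_lt.2 h2)

theorem cof_large {W : Type*} [LinearOrder W] 
    {I : Type} [LinearOrder I]
    (f : I → ℕ → W) (hf : ∀ a b, a < b → ∀ᶠ n in atTop, f a n < f b n)
    (g : ℕ → W) (hg1 : ∀ a, ∀ᶠ n in atTop, f a n < g n)
    (hg2 : ∀ h : ℕ → W, ∃ a, ∀ᶠ n in atTop, h n < g n → h n < f a n)
    (M : Type) [Nonempty M] (hM : ∀ ψ : (ℕ → M) → I, ∃ b, ∀ e, ψ e ≤ b) :
    ∀ᶠ n in atTop, ∀ φ : M → W, (∀ m, φ m < g n) → ∃ w < g n, ∀ m, φ m < w := by
  classical
  by_contra hc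
  have h0 : ∀ n, ∃ φ : M → W, (¬ ∀ φ : M → W, (∀ m, φ m < g n) → ∃ w < g n, ∀ m, φ m < w) →
      (∀ m, φ m < g n) ∧ ∀ w < g n, ∃ m, w ≤ φ m := by
    intro n
    by_cases h1 : ∀ φ : M → W, (∀ m, φ m < g n) → ∃ w < g n, ∀ m, φ m < w
    · exact ⟨fun _ => g n, fun h => absurd h1 h⟩
    · push Not at h1
      obtain ⟨φ, h2, h3⟩ := h1
      exact ⟨φ, fun _ => ⟨h2, h3⟩⟩
  choose φ hφ using h0
  choose ψ hψ using fun e : ℕ → M => hg2 (fun n => φ n (e n))
  obtain ⟨b, hb⟩ := hM ψ
  have h2 : ∀ n, ∃ m : M, (∃ m, f b n ≤ φ n m) → f b n ≤ φ n m := by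
    intro n
    by_cases h : ∃ m, f b n ≤ φ n m
    · obtain ⟨m, hm⟩ := h
      exact ⟨m, fun _ => hm⟩
    · exact ⟨Classical.arbitrary M, fun h' => absurd h' h⟩
  choose e he using h2
  have hle : ∀ᶠ n in atTop, f (ψ e) n ≤ f b n := by
    rcases (hb e).lt_or_eq with h | h
    · filter_upwards [hf _ _ h] with n hn using hn.le
    · rw [h]; exact Eventually.of_forall fun n => le_rfl
  apply hc
  filter_upwards [hle, hg1 b, hψ e] with n h3 h4 h5
  by_contra h6
  obtain ⟨h7, h8⟩ := hφ n h6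
  have h9 := he n (h8 _ h4)
  have h10 := h5 (h7 _)
  exact absurd (h10.trans_le (h3.trans h9)) (lt_irrefl _)

end PCF

section Assembly

open Cardinal Ordinal

/-- the index set, of order type the successor of `ℶ_ω` -/
noncomputable abbrev tau : Cardinal.{0} := ℶ_ ω

abbrev Idx : Type := (Order.succ tau).ord.ToType

theorem aleph0_le_tau : ℵ₀ ≤ tau := aleph0_le_beth _

theorem idx_regular : (Order.succ tau).IsRegular := isRegular_succ aleph0_le_tau

instance : NoMaxOrder Idx := Cardinal.noMaxOrder (aleph0_le_tau.trans (Order.le_succ _))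

instance : Nonempty Idx := by
  rw [Ordinal.nonempty_toType_iff]
  exact idx_regular.ord_pos.ne'

theorem mk_Iio_idx (a : Idx) : #(Iio a) ≤ tau := by
  have := Cardinal.mk_Iio_toType_ord_lt a
  exact Order.lt_succ_iff.1 this

theorem mk_Iic_idx (a : Idx) : #(Iic a) ≤ tau := by
  obtain ⟨b, hb⟩ := exists_gt a
  exact (Cardinal.mk_le_mk_of_subset (fun x hx => lt_of_le_of_lt hx hb)).trans (mk_Iio_idx b)

theorem idx_bdd (M : Type) (φ : M → Idx) (hM : #M ≤ tau) : ∃ b, ∀ m, φ m ≤ b := by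
  by_contra hc
  push Not at hc
  have h1 : IsCofinal (range φ) := by
    intro a
    obtain ⟨m, hm⟩ := hc a
    exact ⟨φ m, ⟨m, rfl⟩, hm.le⟩
  have h2 := Order.cof_le h1
  rw [cof_toType, idx_regular.cof_ord] at h2
  have h3 : #(range φ) ≤ tau := Cardinal.mk_range_le.trans hM
  exact absurd (h2.trans h3) (not_le.2 (Order.lt_succ _))

noncomputable def u (n : ℕ) : Ordinal.{0} := (Order.succ (ℶ_ (n : Ordinal))).ord

theorem ub (J : Type) (hJ : #J ≤ tau) (F : J → ℕ → Ordinal.{0}) (hF : ∀ j n, F j n < u n) :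
    ∃ h : ℕ → Ordinal.{0}, (∀ n, h n < u n) ∧ ∀ j, ∀ᶠ n in atTop, F j n < h n := by
  have h1 : tau ≤ #(Σ n : ℕ, (ℶ_ (n : Ordinal.{0})).out) := by
    rw [Cardinal.mk_sigma]
    simp only [Cardinal.mk_out]
    refine le_trans ?_ (Cardinal.iSup_le_sum _)
    unfold tau
    rw [beth_limit isSuccLimit_omega0]
    apply ciSup_le'
    rintro ⟨a, ha⟩
    obtain ⟨n, rfl⟩ := lt_omega0.1 ha
    exact le_ciSup (f := fun n : ℕ => ℶ_ (n : Ordinal.{0})) (Cardinal.bddAbove_range _) n
  obtain ⟨ι⟩ := (Cardinal.le_def _ _).1 (hJ.trans h1)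
  have h2 : ∀ n : ℕ, #{j : J | (ι j).1 ≤ n} ≤ ℶ_ (n : Ordinal.{0}) := by
    intro n
    have h3 : #{j : J | (ι j).1 ≤ n} ≤ #(Σ k : Fin (n+1), (ℶ_ ((k : ℕ) : Ordinal.{0})).out) := by
      refine Cardinal.mk_le_of_injective
        (f := fun j => ⟨⟨(ι j.1).1, Nat.lt_succ_of_le j.2⟩, (ι j.1).2⟩) ?_
      rintro ⟨j, hj⟩ ⟨k, hk⟩ hjk
      have h4 : (ι j) = (ι k) := by
        simp only [Sigma.mk.injEq, Fin.mk.injEq] at hjk
        exact Sigma.ext hjk.1 hjk.2
      exact Subtype.ext (ι.injective h4)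
    refine h3.trans ?_
    rw [Cardinal.mk_sigma]
    simp only [Cardinal.mk_out]
    refine (Cardinal.sum_le_mk_mul_iSup _).trans ?_
    calc #(Fin (n+1)) * (⨆ k : Fin (n+1), ℶ_ ((k : ℕ) : Ordinal.{0}))
        ≤ ℶ_ (n : Ordinal.{0}) * ℶ_ (n : Ordinal.{0}) := by
          apply mul_le_mul'
          · exact (Cardinal.mk_le_aleph0).trans (aleph0_le_beth _)
          · apply ciSup_le'
            intro k
            apply beth_mono
            exact_mod_cast Nat.lt_succ_iff.1 k.2
      _ = ℶ_ (n : Ordinal.{0}) := Cardinal.mul_eq_self (aleph0_le_beth _)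
  refine ⟨fun n => ⨆ j : {j : J | (ι j).1 ≤ n}, F j n + 1, fun n => ?_, fun j => ?_⟩
  · apply iSup_add_one_lt_of_lt_cof
    · rw [u, (isRegular_succ (aleph0_le_beth _)).cof_ord]
      exact Order.lt_succ_of_le (h2 n)
    · intro i
      exact hF _ _
  · filter_upwards [eventually_ge_atTop (ι j).1] with n hn
    have : F j n + 1 ≤ ⨆ j : {j : J | (ι j).1 ≤ n}, F j n + 1 :=
      le_ciSup (f := fun j : {j : J | (ι j).1 ≤ n} => F j n + 1)
        (Ordinal.bddAbove_range _) ⟨j, hn⟩
    exact lt_of_lt_of_le (lt_add_one _) this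

theorem exists_incr : ∃ f : Idx → ℕ → Ordinal.{0}, (∀ a n, f a n < u n) ∧
    ∀ a b, a < b → ∀ᶠ n in atTop, f a n < f b n := by
  classical
  let P : Type 1 := {h : ℕ → Ordinal.{0} // ∀ n, h n < u n}
  have h1 : ∀ (a : Idx) (rec : ∀ b, b < a → P), ∃ h : P, ∀ b (hb : b < a),
      ∀ᶠ n in atTop, (rec b hb).1 n < h.1 n := by
    intro a rec
    obtain ⟨h, hh1, hh2⟩ := ub (Iio a) (mk_Iio_idx a) (fun j => (rec j.1 j.2).1)
      (fun j => (rec j.1 j.2).2)
    exact ⟨⟨h, hh1⟩, fun b hb => hh2 ⟨b, hb⟩⟩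
  choose step hstep using h1
  let f : Idx → P := wellFounded_lt.fix step
  refine ⟨fun a => (f a).1, fun a => (f a).2, fun a b hab => ?_⟩
  have h2 : f b = step b (fun c _ => f c) := wellFounded_lt.fix_eq step b
  show ∀ᶠ n in atTop, (f a).1 n < (f b).1 n
  rw [h2]
  exact hstep b (fun c _ => f c) a hab

theorem beth_le_tau (n : ℕ) : ℶ_ (n : Ordinal.{0}) ≤ tau := beth_mono (natCast_lt_omega0 n).le

theorem mk_fun_le (j : ℕ) : #(ℕ → (ℶ_ (j : Ordinal.{0})).out) ≤ tau := by
  refine le_trans ?_ (beth_le_tau (j+1))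
  have h1 : ((j + 1 : ℕ) : Ordinal.{0}) = (j : Ordinal.{0}) + 1 := by push_cast; rfl
  rw [h1, beth_add_one]
  calc #(ℕ → (ℶ_ (j : Ordinal.{0})).out) = ℶ_ (j : Ordinal.{0}) ^ ℵ₀ := by simp
    _ ≤ (2 ^ ℶ_ (j : Ordinal.{0})) ^ ℵ₀ := Cardinal.power_le_power_right (Cardinal.cantor _).le
    _ = 2 ^ (ℶ_ (j : Ordinal.{0}) * ℵ₀) := (Cardinal.power_mul).symm
    _ = 2 ^ ℶ_ (j : Ordinal.{0}) := by
      rw [Cardinal.mul_eq_left (aleph0_le_beth _) (aleph0_le_beth _) Cardinal.aleph0_ne_zero]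

theorem continuum_le_tau : 𝔠 ≤ tau := by
  refine le_trans ?_ (beth_le_tau 1)
  have h1 : ((1 : ℕ) : Ordinal.{0}) = 0 + 1 := by simp
  rw [h1, beth_add_one, beth_zero, Cardinal.two_power_aleph0]

theorem not_main :
    ¬ (∀ (X : Type) [TopologicalSpace X] [T35Space X] (τ : Cardinal.{0}),
      (∀ Y : Set X, IsClosed Y → ∃ D ⊆ Y, Y ⊆ closure D ∧ Cardinal.mk ↥D ≤ τ) →
      ∀ Z : Set X, ∃ D ⊆ Z, Z ⊆ closure D ∧ Cardinal.mk ↥D ≤ τ) := by
  classical
  obtain ⟨f, hfu, hf⟩ := exists_incr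
  obtain ⟨g, hgu, hg1, hg2⟩ := exists_eub u (I := Idx)
    (fun ψ => idx_bdd _ ψ (mk_tree_le.trans continuum_le_tau)) f hf (fun a n => (hfu a n).le)
  have hcof : ∀ j : ℕ, ∀ᶠ n in atTop, ∀ φ : (ℶ_ (j : Ordinal.{0})).out → Ordinal.{0},
      (∀ m, φ m < g n) → ∃ w < g n, ∀ m, φ m < w := by
    intro j
    have : Nonempty (ℶ_ (j : Ordinal.{0})).out := by
      rw [← Cardinal.mk_ne_zero_iff, Cardinal.mk_out]
      exact (beth_pos _).ne'
    exact cof_large f hf g hg1 hg2 _ (fun ψ => idx_bdd _ ψ (mk_fun_le j))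
  have hpos : ∀ᶠ n in atTop, 0 < g n := by
    filter_upwards [hg1 (Classical.arbitrary Idx)] with n hn
    exact lt_of_le_of_lt (by simp) hn
  have hcof2 : ∀ j : ℕ, ∃ N : ℕ, ∀ n ≥ N, (0 < g n) ∧
      ∀ φ : (ℶ_ (j : Ordinal.{0})).out → Ordinal.{0},
      (∀ m, φ m < g n) → ∃ w < g n, ∀ m, φ m < w := by
    intro j
    exact eventually_atTop.1 (hpos.and (hcof j))
  choose ν hν using hcof2
  let N : ℕ → ℕ := fun k => Nat.rec (ν 0) (fun _ n => max (ν (n + 1)) (n + 1)) k
  have hN0 : N 0 = ν 0 := rfl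
  have hNs : ∀ k, N (k + 1) = max (ν (N k + 1)) (N k + 1) := fun k => rfl
  have hNmono : StrictMono N := by
    apply strictMono_nat_of_lt_succ
    intro k
    rw [hNs]
    exact lt_of_lt_of_le (Nat.lt_succ_self _) (le_max_right _ _)
  have hNpos : ∀ k, 0 < g (N k) := by
    intro k
    cases k with
    | zero => exact (hν 0 (N 0) le_rfl).1
    | succ k => exact (hν (N k + 1) (N (k+1)) (by rw [hNs]; exact le_max_left _ _)).1
  let L : ℕ → Type := fun k => (g (N k)).ToType
  have hLmk : ∀ k, #(L k) ≤ ℶ_ ((N k + 1 : ℕ) : Ordinal.{0}) := by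
    intro k
    have h1 : #(L k) = (g (N k)).card := Cardinal.mk_toType _
    rw [h1]
    calc (g (N k)).card ≤ (u (N k)).card := Ordinal.card_le_card (hgu _)
      _ = Order.succ (ℶ_ (Nat.cast (N k) : Ordinal.{0})) := by rw [u, Cardinal.card_ord]
      _ ≤ ℶ_ ((N k + 1 : ℕ) : Ordinal.{0}) := by
        apply Order.succ_le_of_lt
        apply beth_strictMono
        exact_mod_cast Nat.lt_succ_self (N k)
  have hbd : ∀ k (M : Type) (j : ℕ), (ν j ≤ N k) → #M ≤ ℶ_ (j : Ordinal.{0}) →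
      ∀ φ : M → L k, ∃ w : L k, ∀ m, φ m < w := by
    intro k M j hj hM φ
    obtain ⟨e, he⟩ : ∃ e : (ℶ_ (j : Ordinal.{0})).out → Option M, Function.Surjective e := by
      have h1 : #(Option M) ≤ #(ℶ_ (j : Ordinal.{0})).out := by
        rw [Cardinal.mk_option, Cardinal.mk_out]
        calc #M + 1 ≤ ℶ_ (j : Ordinal.{0}) + ℶ_ (j : Ordinal.{0}) := by
              apply add_le_add hM
              exact Cardinal.one_le_aleph0.trans (aleph0_le_beth _)
          _ = _ := Cardinal.add_eq_self (aleph0_le_beth _)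
      obtain ⟨i⟩ := (Cardinal.le_def _ _).1 h1
      exact ⟨Function.invFun i, Function.invFun_surjective i.injective⟩
    let φ' : Option M → Ordinal.{0} := fun o => match o with
      | none => 0
      | some m => ((Ordinal.ToType.toOrd (φ m) : Iio (g (N k))) : Ordinal.{0})
    have hφ' : ∀ o, φ' o < g (N k) := by
      intro o
      cases o with
      | none => exact hNpos k
      | some m => exact (Ordinal.ToType.toOrd (φ m)).2
    obtain ⟨w, hw1, hw2⟩ := (hν j (N k) hj).2 (fun x => φ' (e x)) (fun x => hφ' _)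
    refine ⟨Ordinal.ToType.mk ⟨w, hw1⟩, fun m => ?_⟩
    obtain ⟨x, hx⟩ := he (some m)
    have h2 := hw2 x
    rw [hx] at h2
    have h3 : Ordinal.ToType.toOrd (φ m) < ⟨w, hw1⟩ := h2
    have h4 := Ordinal.ToType.mk.strictMono h3
    simpa using h4
  have hNν : ∀ k, ν 0 ≤ N k := fun k => by
    rw [← hN0]; exact hNmono.monotone (Nat.zero_le k)
  have hne : ∀ k, Nonempty (L k) := by
    intro k
    rw [Ordinal.nonempty_toType_iff]
    exact (hNpos k).ne'
  have hmax : ∀ k, NoMaxOrder (L k) := by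
    intro k
    refine ⟨fun a => ?_⟩
    obtain ⟨w, hw⟩ := hbd k Unit 0 (hNν k) (by
      rw [Cardinal.mk_unit]
      exact Cardinal.one_le_aleph0.trans (aleph0_le_beth _)) (fun _ => a)
    exact ⟨w, hw ()⟩
  let h₀ : ∀ k, L k := fun k => Classical.choice (hne k)
  let f' : Idx → ∀ k, L k := fun a k =>
    if h : f a (N k) < g (N k) then Ordinal.ToType.mk ⟨f a (N k), h⟩ else h₀ k
  have hlt : ∀ a b k, f a (N k) < g (N k) → f b (N k) < g (N k) → f a (N k) < f b (N k) →
      f' a k < f' b k := by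
    intro a b k h1 h2 h3
    simp only [f', h1, h2, dif_pos]
    exact Ordinal.ToType.mk.strictMono h3
  have htend : Tendsto N atTop atTop := hNmono.tendsto_atTop
  refine counterexample (L := L) tau aleph0_le_tau h₀
    (fun n => (hLmk n).trans (beth_le_tau _)) ?_ Idx mk_Iic_idx idx_bdd f' ?_ ?_
  · intro k φ
    have : ∃ w, ∀ s, φ s < w := by
      cases k with
      | zero =>
        apply hbd 0 _ 0 le_rfl
        calc #(∀ i : Fin 0, L i) ≤ ℵ₀ := Cardinal.mk_le_aleph0
          _ ≤ _ := aleph0_le_beth _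
      | succ k =>
        apply hbd (k+1) _ (N k + 1) (by rw [hNs]; exact le_max_left _ _)
        rw [Cardinal.mk_pi]
        calc Cardinal.prod (fun i : Fin (k+1) => #(L i))
            ≤ Cardinal.prod (fun _ : Fin (k+1) => ℶ_ ((N k + 1 : ℕ) : Ordinal.{0})) := by
              apply Cardinal.prod_le_prod
              intro i
              refine (hLmk i).trans (beth_mono ?_)
              have : N i ≤ N k := hNmono.monotone (Nat.lt_succ_iff.1 i.2)
              exact_mod_cast Nat.succ_le_succ this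
          _ = ℶ_ ((N k + 1 : ℕ) : Ordinal.{0}) ^ ((k + 1 : ℕ) : Cardinal.{0}) := by simp
          _ ≤ ℶ_ ((N k + 1 : ℕ) : Ordinal.{0}) := Cardinal.power_nat_le (aleph0_le_beth _)
    obtain ⟨w, hw⟩ := this
    exact ⟨w, fun s => (hw s).le⟩
  · intro a b hab
    filter_upwards [htend.eventually (hf a b hab), htend.eventually (hg1 a),
      htend.eventually (hg1 b)] with k h1 h2 h3
    exact hlt a b k h2 h3 h1
  · intro h
    let h' : ℕ → Ordinal.{0} := Function.extend N
      (fun k => ((Ordinal.ToType.toOrd (h k) : Iio (g (N k))) : Ordinal.{0})) 0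
    have hh' : ∀ k, h' (N k) = ((Ordinal.ToType.toOrd (h k) : Iio (g (N k))) : Ordinal.{0}) :=
      fun k => hNmono.injective.extend_apply _ _ k
    obtain ⟨a, ha⟩ := hg2 h'
    refine ⟨a, ?_⟩
    filter_upwards [htend.eventually ha, htend.eventually (hg1 a)] with k h1 h2
    rw [hh'] at h1
    have h3 := h1 (Ordinal.ToType.toOrd (h k)).2
    simp only [f', h2, dif_pos]
    have h4 : Ordinal.ToType.toOrd (h k) < ⟨f a (N k), h2⟩ := h3
    have h5 := Ordinal.ToType.mk.strictMono h4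
    have h6 : Ordinal.ToType.mk (Ordinal.ToType.toOrd (h k)) = h k := by simp
    rw [h6] at h5
    exact h5.le

end Assembly

end Pool.Agent.Work.MP_a33cdf_gt
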